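import Pool.Agent.N877.P24.Defs2
import Pool.Agent.N123.P24.C1A
import Pool.Agent.N973.P15.C1A

/-! # P24x C1: the forms `FmC` and the cusps as factorizations

Adapted from `Pool/Agent/N123/P24/C1A.lean`. -/

set_option autoImplicit false

namespace Pool.Agent.N218.P24

open Finset Pool.Agent.N877.P24
open Pool.Agent.N123.P24.C1A (wq)

/-- the forms which are negative at `x / M` -/
def SS (x M : ℤ) : Set (ℤ × ℤ × ℤ) :=
  {q | FmC q ∧ 0 < q.1 ∧ q.1 * x ^ 2 + q.2.1 * x * M + q.2.2 * M ^ 2 < 0}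

theorem SS_fin (x M : ℤ) (hM : 0 < M) : (SS x M).Finite := by
  have h1 : ((Set.Icc (0:ℤ) (M^2)) ×ˢ (Set.Icc (-(M^2)) (M^2))).Finite :=
    (Set.finite_Icc _ _).prod (Set.finite_Icc _ _)
  refine Set.Finite.of_injOn (f := fun q : ℤ×ℤ×ℤ => (q.1, 2 * q.1 * x + q.2.1 * M)) ?_ ?_ h1
  · rintro ⟨A, B, C⟩ ⟨⟨hd, _⟩, hA, hN⟩
    simp only at hd hA hN
    have key : (2*A*x+B*M)^2 = 4*A*(A*x^2+B*x*M+C*M^2) + M^2 := by
      linear_combination M^2 * hd
    have h2 : A * (A*x^2+B*x*M+C*M^2) ≤ -A := by nlinarith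
    have h3 : 0 ≤ (2*A*x+B*M)^2 := sq_nonneg _
    have h4 : (2*A*x+B*M)^2 ≤ M^2 := by nlinarith
    have h5 : |2*A*x+B*M| ≤ (2*A*x+B*M)^2 := by
      rw [← sq_abs]
      have := abs_nonneg (2*A*x+B*M)
      nlinarith [Int.le_self_sq (|2*A*x+B*M|)]
    have h6 := abs_le.1 (h5.trans h4)
    simp only [Set.mem_prod, Set.mem_Icc]
    refine ⟨⟨hA.le, by nlinarith⟩, h6.1, h6.2⟩
  · rintro ⟨A, B, C⟩ ⟨⟨hd, _⟩, hA, hN⟩ ⟨A', B', C'⟩ ⟨⟨hd', _⟩, hA', hN'⟩ h
    simp only [Prod.mk.injEq] at h hd hd' hA hA'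
    obtain ⟨rfl, h2⟩ := h
    have h3 : B * M = B' * M := by linarith
    have h4 : B = B' := mul_right_cancel₀ hM.ne' h3
    subst h4
    have h5 : A * C = A * C' := by linarith
    have h6 : C = C' := mul_left_cancel₀ hA.ne' h5
    rw [h6]

open Classical in
/-- the forms with a given residue of `B` -/
noncomputable def SF (r x M : ℤ) : Finset (ℤ × ℤ × ℤ) :=
  if h : 0 < M then (SS_fin x M h).toFinset.filter (fun q => q.2.1 % 4 = r) else ∅

theorem mem_SF (r x M : ℤ) (hM : 0 < M) (q : ℤ × ℤ × ℤ) :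
    q ∈ SF r x M ↔ q ∈ SS x M ∧ q.2.1 % 4 = r := by
  unfold SF
  rw [dif_pos hM, Finset.mem_filter, Set.Finite.mem_toFinset]

/-- the weighted number of forms -/
noncomputable def H (r x M : ℤ) : ℤ := ∑ q ∈ SF r x M, wq q

theorem FmC_odd {q : ℤ × ℤ × ℤ} (h : FmC q) : q.2.1 % 4 = 1 ∨ q.2.1 % 4 = 3 := by
  obtain ⟨A, B, C⟩ := q
  obtain ⟨h1, -⟩ := h
  simp only at h1 ⊢
  have hB : B % 2 = 1 := by
    by_contra h
    obtain ⟨k, hk⟩ : ∃ k, B = 2 * k := ⟨B / 2, by omega⟩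
    rw [hk] at h1
    have : 2 * (2 * k ^ 2 - 2 * A * C) = 1 := by linear_combination h1
    omega
  omega

theorem FC_eq (x M : ℤ) (hM : 0 < M) : FC x M = H 1 x M - H 3 x M := by
  classical
  unfold FC
  rw [finsum_eq_sum_of_support_subset (s := SF 1 x M ∪ SF 3 x M)]
  · rw [Finset.sum_union]
    · have key : ∀ r : ℤ, (r = 1 ∨ r = 3) → ∑ q ∈ SF r x M, (if FmC q ∧ 0 < q.1 ∧
          q.1 * x ^ 2 + q.2.1 * x * M + q.2.2 * M ^ 2 < 0 then cC q else 0) =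
          (if r = 1 then 1 else -1) * H r x M := by
        intro r hr
        have e1 : ∀ q ∈ SF r x M, (if FmC q ∧ 0 < q.1 ∧
          q.1 * x ^ 2 + q.2.1 * x * M + q.2.2 * M ^ 2 < 0 then cC q else 0) =
          (if r = 1 then 1 else -1) * wq q := by
          intro q hq
          obtain ⟨h1, h5⟩ := (mem_SF r x M hM q).1 hq
          have h1' : FmC q ∧ 0 < q.1 ∧ q.1 * x ^ 2 + q.2.1 * x * M + q.2.2 * M ^ 2 < 0 := h1
          rw [if_pos h1']
          unfold cC wq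
          rw [h5]
        rw [Finset.sum_congr rfl e1, ← Finset.mul_sum]
        rfl
      rw [key 1 (Or.inl rfl), key 3 (Or.inr rfl)]
      norm_num
      ring
    · rw [Finset.disjoint_left]
      intro q h1 h2
      have e1 := ((mem_SF 1 x M hM q).1 h1).2
      have e2 := ((mem_SF 3 x M hM q).1 h2).2
      omega
  · intro q hq
    rw [Function.mem_support] at hq
    have h : FmC q ∧ 0 < q.1 ∧ q.1 * x ^ 2 + q.2.1 * x * M + q.2.2 * M ^ 2 < 0 := by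
      by_contra hn
      exact hq (if_neg hn)
    rw [Finset.mem_coe, Finset.mem_union, mem_SF _ _ _ hM, mem_SF _ _ _ hM]
    have h6 : q ∈ SS x M := h
    rcases FmC_odd h.1 with h3 | h3
    · exact Or.inl ⟨h6, h3⟩
    · exact Or.inr ⟨h6, h3⟩

theorem H_flip (x M : ℤ) (hM : 0 < M) : H 1 x M = H 3 (2 * M - x) M := by
  have key : ∀ (r r' y : ℤ), (r = 1 ∧ r' = 3 ∨ r = 3 ∧ r' = 1) → ∀ q ∈ SF r y M,
      (q.1, -(4 * q.1 + q.2.1), 4 * q.1 + 2 * q.2.1 + q.2.2) ∈ SF r' (2 * M - y) M ∧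
      wq (q.1, -(4 * q.1 + q.2.1), 4 * q.1 + 2 * q.2.1 + q.2.2) = wq q := by
    rintro r r' y hr ⟨A, B, C⟩ h
    rw [mem_SF _ _ _ hM] at h ⊢
    simp only [SS, FmC, Set.mem_ofPred_eq] at h ⊢
    obtain ⟨⟨⟨h1, h2, h2'⟩, h4, h5⟩, h6⟩ := h
    refine ⟨⟨⟨⟨by linear_combination h1, h2, h2'⟩, h4, ?_⟩, by omega⟩, ?_⟩
    · calc _ = A * y ^ 2 + B * y * M + C * M ^ 2 := by ring
        _ < 0 := h5
    · unfold wq
      simp only
      congr 1
      apply propext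
      omega
  have inv : ∀ q : ℤ × ℤ × ℤ,
      (fun q : ℤ × ℤ × ℤ => (q.1, -(4 * q.1 + q.2.1), 4 * q.1 + 2 * q.2.1 + q.2.2))
      ((fun q : ℤ × ℤ × ℤ => (q.1, -(4 * q.1 + q.2.1), 4 * q.1 + 2 * q.2.1 + q.2.2)) q) = q := by
    rintro ⟨A, B, C⟩
    simp only [Prod.mk.injEq]
    refine ⟨trivial, by ring, by ring⟩
  have e0 : 2 * M - (2 * M - x) = x := by ring
  unfold H
  refine Finset.sum_nbij' (fun q => (q.1, -(4 * q.1 + q.2.1), 4 * q.1 + 2 * q.2.1 + q.2.2))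
      (fun q => (q.1, -(4 * q.1 + q.2.1), 4 * q.1 + 2 * q.2.1 + q.2.2)) ?_ ?_ ?_ ?_ ?_
  · intro q hq
    exact (key 1 3 x (Or.inl ⟨rfl, rfl⟩) q hq).1
  · intro q hq
    have := key 3 1 (2 * M - x) (Or.inr ⟨rfl, rfl⟩) q hq
    rw [e0] at this
    exact this.1
  · intro q _
    exact inv q
  · intro q _
    exact inv q
  · intro q hq
    exact (key 1 3 x (Or.inl ⟨rfl, rfl⟩) q hq).2.symm

/-- the set of factorization data, determinant `m` -/
def Om (m : ℕ) : Finset (Σ _ : ℕ, ℕ × ℕ) :=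
  (range m).sigma fun T =>
    ((m - T).divisors.filter (fun a => 2 ∣ a ∧ ¬ 3 ∣ a)) ×ˢ (T.divisors.filter (¬ 3 ∣ ·))

/-- the condition on the cusp -/
def Cd (m : ℕ) (x : ℤ) (w : Σ _ : ℕ, ℕ × ℕ) : Prop :=
  (m : ℤ) ∣ (w.2.1 : ℤ) * x + ((w.1 / w.2.2 : ℕ) : ℤ) ∧
  (m : ℤ) ∣ (w.2.2 : ℤ) * x - (((m - w.1) / w.2.1 : ℕ) : ℤ)

instance (m : ℕ) (x : ℤ) (w : Σ _ : ℕ, ℕ × ℕ) : Decidable (Cd m x w) := by
  unfold Cd; infer_instance

/-- the form attached to the data -/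
def fw (m : ℕ) (x : ℤ) (w : Σ _ : ℕ, ℕ × ℕ) : ℤ × ℤ × ℤ :=
  ((w.2.1 : ℤ) * w.2.2,
    w.2.1 * ((((m - w.1) / w.2.1 : ℕ) - (w.2.2 : ℤ) * x) / m) +
      w.2.2 * ((-((w.1 / w.2.2 : ℕ) : ℤ) - (w.2.1 : ℤ) * x) / m),
    ((-((w.1 / w.2.2 : ℕ) : ℤ) - (w.2.1 : ℤ) * x) / m) *
      ((((m - w.1) / w.2.1 : ℕ) - (w.2.2 : ℤ) * x) / m))

/-- the facts about the data -/
structure Fc (m : ℕ) (x : ℤ) (T a a' : ℕ) (X Y : ℕ) (c c' : ℤ) : Prop where
  hX : T / a' = X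
  hY : (m - T) / a = Y
  hT : T = a' * X
  hS : m - T = a * Y
  h3 : (a : ℤ) * Y + a' * X = m
  pa : 0 < a
  pa' : 0 < a'
  pX : 0 < X
  pY : 0 < Y
  ha : 2 ∣ a
  hna : ¬ 3 ∣ a
  hna' : ¬ 3 ∣ a'
  hc : -(X : ℤ) - a * x = m * c
  hc' : (Y : ℤ) - a' * x = m * c'
  dt : (a : ℤ) * c' - a' * c = 1

theorem facts (m : ℕ) (hm : 0 < m) (x : ℤ) (T a a' : ℕ)
    (h : (⟨T, (a, a')⟩ : Σ _ : ℕ, ℕ × ℕ) ∈ Om m)
    (hC : Cd m x ⟨T, (a, a')⟩) : ∃ X Y : ℕ, ∃ c c' : ℤ, Fc m x T a a' X Y c c' ∧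
      fw m x ⟨T, (a, a')⟩ = ((a : ℤ) * a', a * c' + a' * c, c * c') := by
  unfold Om at h
  simp only [Finset.mem_sigma, Finset.mem_filter, Finset.mem_range, Finset.mem_product,
    Nat.mem_divisors] at h
  obtain ⟨hT, ⟨⟨h1, h2⟩, h3⟩, ⟨h4, h5⟩, h6⟩ := h
  obtain ⟨Y, hY⟩ := h1
  obtain ⟨X, hX⟩ := h4
  have pa : 0 < a := by
    rcases Nat.eq_zero_or_pos a with h | h
    · subst h; simp at hY; omega
    · exact h
  have pa' : 0 < a' := by
    rcases Nat.eq_zero_or_pos a' with h | h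
    · subst h; simp at hX; exact absurd hX h5
    · exact h
  have eX : T / a' = X := by rw [hX]; exact Nat.mul_div_cancel_left _ pa'
  have eY : (m - T) / a = Y := by rw [hY]; exact Nat.mul_div_cancel_left _ pa
  have pX : 0 < X := by
    rcases Nat.eq_zero_or_pos X with h | h
    · subst h; simp at hX; exact absurd hX h5
    · exact h
  have pY : 0 < Y := by
    rcases Nat.eq_zero_or_pos Y with h | h
    · subst h; simp at hY; omega
    · exact h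
  have e3 : (a : ℤ) * Y + a' * X = m := by
    have : a * Y + a' * X = m := by omega
    exact_mod_cast this
  unfold Cd at hC
  simp only at hC
  rw [eX, eY] at hC
  obtain ⟨⟨j, hj⟩, ⟨j', hj'⟩⟩ := hC
  have hc : -(X : ℤ) - a * x = m * (-j) := by linear_combination -hj
  have hc' : (Y : ℤ) - a' * x = m * (-j') := by linear_combination -hj'
  have hm' : (m : ℤ) ≠ 0 := by exact_mod_cast hm.ne'
  refine ⟨X, Y, -j, -j', ⟨eX, eY, hX, hY, e3, pa, pa', pX, pY, h3.1, h3.2, h6, hc, hc', ?_⟩, ?_⟩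
  · apply mul_left_cancel₀ hm'
    linear_combination e3 - a * hc' + a' * hc
  · unfold fw
    simp only
    rw [eX, eY, hc, hc', Int.mul_ediv_cancel_left _ hm', Int.mul_ediv_cancel_left _ hm']

/-- the sign of the data -/
def sx (m : ℕ) (x : ℤ) (w : Σ _ : ℕ, ℕ × ℕ) : ℤ :=
  if (2 : ℤ) ∣ ((w.2.1 / 2 : ℕ) : ℤ) + (((((m - w.1) / w.2.1 : ℕ) : ℤ) - (w.2.2 : ℤ) * x) / m)
  then 1 else -1

theorem fwd_mem {m : ℕ} {x : ℤ} {T a a' X Y : ℕ} {c c' : ℤ}
    (hm : 0 < m) (f : Fc m x T a a' X Y c c') :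
    ((a : ℤ) * a', a * c' + a' * c, c * c') ∈ SS x m ∧ (a * c' + a' * c) % 4 = 3 ∧
      wq ((a : ℤ) * a', a * c' + a' * c, c * c') = sx m x ⟨T, (a, a')⟩ := by
  have hna : ¬ (3 : ℤ) ∣ (a : ℤ) := fun h => f.hna (by exact_mod_cast h)
  have hna' : ¬ (3 : ℤ) ∣ (a' : ℤ) := fun h => f.hna' (by exact_mod_cast h)
  obtain ⟨s, hs⟩ := f.ha
  have hs' : (a : ℤ) = 2 * s := by rw [hs]; push_cast; ring
  have e2 : (a' : ℤ) * c = 2 * (s * c') - 1 := by
    have := f.dt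
    rw [hs'] at this
    linear_combination -this
  have hodd : (a' : ℤ) * c % 2 = 1 := by omega
  have hB : (a * c' + a' * c) % 4 = 3 := by
    have e3 : (a : ℤ) * c' + a' * c = 2 * (a' * c) + 1 := by linear_combination f.dt
    rw [e3]
    omega
  -- parities
  have hca : (a' : ℤ) % 2 = 1 ∧ c % 2 = 1 := by
    rw [← Int.odd_iff, Int.odd_mul, Int.odd_iff, Int.odd_iff] at hodd
    exact hodd
  refine ⟨⟨⟨?_, ?_, ?_⟩, ?_, ?_⟩, hB, ?_⟩
  · simp only
    linear_combination (a * c' - a' * c + 1) * f.dt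
  · simp only
    exact ⟨s * a', by rw [hs']; ring⟩
  · simp only
    intro h
    rcases Int.prime_three.dvd_or_dvd h with h | h
    · exact hna h
    · exact hna' h
  · simp only
    exact mul_pos (by exact_mod_cast f.pa) (by exact_mod_cast f.pa')
  · simp only
    have h1 : (a : ℤ) * a' * x ^ 2 + (a * c' + a' * c) * x * m + c * c' * m ^ 2 = -(X * Y) := by
      linear_combination (-(a' : ℤ) * x - m * c') * f.hc + (X : ℤ) * f.hc'
    rw [h1]
    have : (0 : ℤ) < X * Y := mul_pos (by exact_mod_cast f.pX) (by exact_mod_cast f.pY)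
    linarith
  · have hm' : (m : ℤ) ≠ 0 := by exact_mod_cast hm.ne'
    unfold wq sx
    simp only
    rw [f.hY, f.hc', Int.mul_ediv_cancel_left _ hm']
    obtain ⟨j, hj⟩ : ∃ j : ℤ, (a' : ℤ) = 2 * j + 1 := ⟨(a' : ℤ) / 2, by omega⟩
    obtain ⟨l, hl⟩ : ∃ l : ℤ, c = 2 * l + 1 := ⟨c / 2, by omega⟩
    have eA : (a : ℤ) * a' / 2 = 2 * (s * j) + s := by
      rw [hs', hj, show (2 : ℤ) * s * (2 * j + 1) = 2 * (2 * (s * j) + s) by ring]
      exact Int.mul_ediv_cancel_left _ two_ne_zero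
    have eC : c * c' = 2 * (l * c') + c' := by rw [hl]; ring
    have ea : a / 2 = s := by omega
    rw [eA, eC, ea]
    congr 1
    apply propext
    omega

theorem inj_aux {m : ℕ} {x : ℤ} {T a a' X Y : ℕ} {c c' : ℤ}
    (f : Fc m x T a a' X Y c c') :
    (a' : ℤ) = Int.gcd ((a : ℤ) * a') (a' * c) := by
  have h1 : Int.gcd (a : ℤ) c = 1 := by
    rw [← Int.isCoprime_iff_gcd_eq_one]
    exact ⟨c', -a', by linear_combination f.dt⟩
  rw [mul_comm (a : ℤ) a', Int.gcd_mul_left, h1]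
  simp

theorem inj {m : ℕ} {x : ℤ} {T a a' X Y : ℕ} {c c' : ℤ}
    (f : Fc m x T a a' X Y c c')
    {T1 a1 a1' X1 Y1 : ℕ} {c1 c1' : ℤ}
    (f1 : Fc m x T1 a1 a1' X1 Y1 c1 c1')
    (e : ((a : ℤ) * a', a * c' + a' * c, c * c') =
      (((a1 : ℤ) * a1', a1 * c1' + a1' * c1, c1 * c1') : ℤ × ℤ × ℤ)) : T = T1 ∧ a = a1 ∧ a' = a1' := by
  simp only [Prod.mk.injEq] at e
  obtain ⟨e1, e2, e3⟩ := e
  have e4 : (a' : ℤ) * c = a1' * c1 := by linarith [f.dt, f1.dt]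
  have k1 := inj_aux f
  have k2 := inj_aux f1
  rw [e1, e4, ← k2] at k1
  have k3 : a' = a1' := by exact_mod_cast k1
  subst k3
  have p := f.pa'
  have k4 : (a : ℤ) = a1 := mul_right_cancel₀ (by exact_mod_cast p.ne') e1
  have k5 : a = a1 := by exact_mod_cast k4
  subst k5
  refine ⟨?_, rfl, rfl⟩
  have p' : (a' : ℤ) ≠ 0 := by exact_mod_cast p.ne'
  have k6 : c = c1 := mul_left_cancel₀ p' e4
  subst k6
  have k7 : X = X1 := by
    have h1 := f.hc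
    have h2 := f1.hc
    have : (X : ℤ) = X1 := by linarith
    exact_mod_cast this
  rw [f.hT, f1.hT, k7]

theorem surj {m : ℕ} (hm : 0 < m) {x : ℤ} {q : ℤ × ℤ × ℤ} (hq : q ∈ SS x m)
    (h7 : q.2.1 % 4 = 3) : ∃ w ∈ Om m, Cd m x w ∧ fw m x w = q := by
  obtain ⟨A, B, C⟩ := q
  obtain ⟨⟨hd, h6, h63⟩, hA, hN⟩ := hq
  simp only at hd h6 h63 hA hN h7
  obtain ⟨γ, hγ⟩ : ∃ γ, B = 2 * γ + 1 := ⟨(B - 1) / 2, by omega⟩
  subst hγ
  have hAC : A * C = γ * (γ + 1) := by linarith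
  have hγ2 : γ % 2 = 1 := by omega
  -- the gcd
  obtain ⟨a', ha'⟩ : ∃ a' : ℕ, a' = Int.gcd A γ := ⟨_, rfl⟩
  have hd1 : (a' : ℤ) ∣ A := by rw [ha']; exact Int.gcd_dvd_left ..
  have hd2 : (a' : ℤ) ∣ γ := by rw [ha']; exact Int.gcd_dvd_right ..
  obtain ⟨a, ha⟩ := hd1
  obtain ⟨c, hc⟩ := hd2
  have pa' : (0 : ℤ) < a' := by
    rcases Nat.eq_zero_or_pos a' with h | h
    · rw [h] at ha; simp at ha; omega
    · exact_mod_cast h
  have pa : 0 < a := by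
    rw [ha] at hA
    exact (mul_pos_iff_of_pos_left pa').1 hA
  have hgcd : Int.gcd a c = 1 := by
    have h1 : a' = a' * Int.gcd a c := by
      conv_lhs => rw [ha', ha, hc, Int.gcd_mul_left]
      simp
    have h2 : 0 < a' := by exact_mod_cast pa'
    exact (Nat.eq_of_mul_eq_mul_left h2 (by rw [← h1, mul_one])).symm
  have hcop : IsCoprime a c := Int.isCoprime_iff_gcd_eq_one.2 hgcd
  have h1 : a * C = c * (γ + 1) := by
    apply mul_left_cancel₀ pa'.ne'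
    rw [← mul_assoc, ← ha, hAC, ← mul_assoc, ← hc]
  have h2 : a ∣ γ + 1 := by
    have : a ∣ c * (γ + 1) := ⟨C, h1.symm⟩
    exact hcop.dvd_of_dvd_mul_left this
  obtain ⟨c', hc'⟩ := h2
  have hC : C = c * c' := by
    apply mul_left_cancel₀ pa.ne'
    rw [h1, hc']
    ring
  have dt : a * c' - a' * c = 1 := by rw [← hc', ← hc]; ring
  have ha2 : (2 : ℤ) ∣ a := by
    have h5 : (2 : ℤ) ∣ a' * a := by rw [← ha]; exact h6
    rcases Int.prime_two.dvd_or_dvd h5 with h | h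
    · exfalso
      have h8 : (2 : ℤ) ∣ γ := hc ▸ h.mul_right c
      omega
    · exact h
  have hna3 : ¬ (3 : ℤ) ∣ a := fun h => h63 (by rw [ha]; exact h.mul_left _)
  have hna3' : ¬ (3 : ℤ) ∣ (a' : ℤ) := fun h => h63 (by rw [ha]; exact h.mul_right _)
  lift a to ℕ using pa.le with a hae
  -- X and Y
  obtain ⟨X, hX⟩ : ∃ X : ℤ, X = -(a * x + c * m) := ⟨_, rfl⟩
  obtain ⟨Y, hY⟩ : ∃ Y : ℤ, Y = a' * x + c' * m := ⟨_, rfl⟩
  have hXY : 0 < X * Y := by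
    have : X * Y = -(A * x ^ 2 + (2 * γ + 1) * x * m + C * m ^ 2) := by
      rw [hX, hY, hC, ha]
      linear_combination (x * m) * hc + (x * m) * hc'
    rw [this]
    linarith
  have h3 : (a : ℤ) * Y + a' * X = m := by
    rw [hX, hY]
    linear_combination (m : ℤ) * dt
  have hpos : 0 < X ∧ 0 < Y := by
    rcases pos_and_pos_or_neg_and_neg_of_mul_pos hXY with h | h
    · exact h
    · exfalso
      have e1 : (a : ℤ) * Y < 0 := mul_neg_of_pos_of_neg pa h.2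
      have e2 : (a' : ℤ) * X < 0 := mul_neg_of_pos_of_neg pa' h.1
      have e3 : (0 : ℤ) < m := by exact_mod_cast hm
      linarith
  obtain ⟨pX, pY⟩ := hpos
  lift X to ℕ using pX.le with X hXe
  lift Y to ℕ using pY.le with Y hYe
  have h3' : a * Y + a' * X = m := by exact_mod_cast h3
  have na : 0 < a := by exact_mod_cast pa
  have na' : 0 < a' := by exact_mod_cast pa'
  have nX : 0 < X := by exact_mod_cast pX
  have nY : 0 < Y := by exact_mod_cast pY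
  have d2 : 2 ∣ a := by exact_mod_cast ha2
  have d3 : ¬ 3 ∣ a := fun h => hna3 (by exact_mod_cast h)
  have d3' : ¬ 3 ∣ a' := fun h => hna3' (by exact_mod_cast h)
  have eS : m - a' * X = a * Y := by omega
  have e1 : (m - a' * X) / a = Y := by rw [eS]; exact Nat.mul_div_cancel_left _ na
  have e2 : a' * X / a' = X := Nat.mul_div_cancel_left _ na'
  have e3 : -(X : ℤ) - a * x = m * c := by rw [hX]; ring
  have e4 : (Y : ℤ) - a' * x = m * c' := by rw [hY]; ring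
  have hm' : (m : ℤ) ≠ 0 := by exact_mod_cast hm.ne'
  have pXa : 0 < a' * X := Nat.mul_pos na' nX
  have pYa : 0 < a * Y := Nat.mul_pos na nY
  refine ⟨⟨a' * X, (a, a')⟩, ?_, ?_, ?_⟩
  · unfold Om
    simp only [Finset.mem_sigma, Finset.mem_filter, Finset.mem_range, Finset.mem_product,
      Nat.mem_divisors]
    rw [eS]
    refine ⟨by omega, ⟨⟨Dvd.intro _ rfl, by omega⟩, d2, d3⟩,
      ⟨Dvd.intro _ rfl, by omega⟩, d3'⟩
  · unfold Cd
    simp only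
    rw [e1, e2]
    exact ⟨⟨-c, by linear_combination -e3⟩, ⟨-c', by linear_combination -e4⟩⟩
  · unfold fw
    simp only
    rw [e1, e2, e3, e4, Int.mul_ediv_cancel_left _ hm', Int.mul_ediv_cancel_left _ hm', ← hc, ← hc',
      ← hC, mul_comm (a : ℤ), ← ha]
    simp only [Prod.mk.injEq, and_true, true_and]
    ring

/-- the sum over the data -/
def KS (m : ℕ) (x : ℤ) : ℤ := ∑ w ∈ (Om m).filter (fun w => Cd m x w), sx m x w

/-- the weighted number of forms is a sum over the data -/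
theorem H_eq {m : ℕ} (hm : 0 < m) (x : ℤ) : KS m x = H 3 x m := by
  have hm0 : (0 : ℤ) < m := by exact_mod_cast hm
  unfold KS H
  refine Finset.sum_bij (fun w _ => fw m x w) ?_ ?_ ?_ ?_
  · rintro ⟨T, a, a'⟩ hw
    rw [Finset.mem_filter] at hw
    obtain ⟨X, Y, c, c', f, hf⟩ := facts m hm x T a a' hw.1 hw.2
    rw [hf, mem_SF _ _ _ hm0]
    have := fwd_mem hm f
    exact ⟨this.1, this.2.1⟩
  · rintro ⟨T, a, a'⟩ hw ⟨T1, a1, a1'⟩ hw1 e
    rw [Finset.mem_filter] at hw hw1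
    obtain ⟨X, Y, c, c', f, hf⟩ := facts m hm x T a a' hw.1 hw.2
    obtain ⟨X1, Y1, c1, c1', f1, hf1⟩ := facts m hm x T1 a1 a1' hw1.1 hw1.2
    rw [hf, hf1] at e
    obtain ⟨k1, k2, k3⟩ := inj f f1 e
    subst k1 k2 k3
    rfl
  · intro q hq
    rw [mem_SF _ _ _ hm0] at hq
    obtain ⟨w, hw, hC, hf⟩ := surj hm hq.1 hq.2
    exact ⟨w, Finset.mem_filter.2 ⟨hw, hC⟩, hf⟩
  · rintro ⟨T, a, a'⟩ hw
    rw [Finset.mem_filter] at hw
    obtain ⟨X, Y, c, c', f, hf⟩ := facts m hm x T a a' hw.1 hw.2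
    rw [hf, (fwd_mem hm f).2.2]

/-- the sum over the units of an odd function -/
theorem sum_flip {n : ℕ} (hn : 1 < n) (χ : ℤ → ℤ) (hχ : ∀ u : ℤ, χ (n - u) = -χ u) (M : ℤ)
    (hM : 0 < M) (f : ℤ → ℤ) (hf : ∀ u : ℤ, 2 * M - f u = f (n - u)) :
    ∑ u ∈ un n, χ u * FC (f u) M = -(2 * ∑ u ∈ un n, χ u * H 3 (f u) M) := by
  have mem : ∀ u ∈ un n, n - u ∈ un n ∧ n - (n - u) = u ∧ u < n := by
    intro u hu
    unfold un at hu ⊢
    rw [Finset.mem_filter, Finset.mem_range] at hu ⊢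
    have hu0 : u ≠ 0 := by
      rintro rfl
      have := hu.2
      rw [Nat.coprime_zero_left] at this
      omega
    refine ⟨⟨by omega, ?_⟩, by omega, hu.1⟩
    rw [Nat.coprime_comm, Nat.coprime_self_sub_right hu.1.le, Nat.coprime_comm]
    exact hu.2
  have flip : ∑ u ∈ un n, χ u * H 1 (f u) M = -∑ u ∈ un n, χ u * H 3 (f u) M := by
    rw [← Finset.sum_neg_distrib]
    refine Finset.sum_nbij' (fun u => n - u) (fun u => n - u) ?_ ?_ ?_ ?_ ?_
    · intro u hu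
      exact (mem u hu).1
    · intro u hu
      exact (mem u hu).1
    · intro u hu
      exact (mem u hu).2.1
    · intro u hu
      exact (mem u hu).2.1
    · intro u hu
      rw [H_flip _ _ hM]
      have e1 : ((n - u : ℕ) : ℤ) = (n : ℤ) - u := by
        rw [Nat.cast_sub (mem u hu).2.2.le]
      rw [e1, hχ, hf]
      ring
  have lhs : ∀ u ∈ un n, χ u * FC (f u) M = χ u * H 1 (f u) M - χ u * H 3 (f u) M := by
    intro u _
    rw [FC_eq _ _ hM]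
    ring
  rw [Finset.sum_congr rfl lhs, Finset.sum_sub_distrib, flip]
  ring

/-- the sum over the data, then over the cusps -/
theorem sum_KS (n m : ℕ) (χ f : ℤ → ℤ) : ∑ u ∈ un n, χ u * KS m (f u) =
    ∑ T ∈ range m, ∑ a ∈ (m - T).divisors.filter (fun a => 2 ∣ a ∧ ¬ 3 ∣ a),
      ∑ c ∈ T.divisors.filter (¬ 3 ∣ ·),
        ∑ u ∈ (un n).filter (fun u : ℕ => (m : ℤ) ∣ (a : ℤ) * f u + ((T / c : ℕ) : ℤ) ∧
          (m : ℤ) ∣ (c : ℤ) * f u - (((m - T) / a : ℕ) : ℤ)),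
          χ u * sx m (f u) ⟨T, (a, c)⟩ := by
  classical
  have h : ∀ u ∈ un n, χ u * KS m (f u) =
      ∑ w ∈ Om m, if Cd m (f u) w then χ u * sx m (f u) w else 0 := by
    intro u _
    unfold KS
    rw [← Finset.sum_filter, Finset.mul_sum]
  rw [Finset.sum_congr rfl h, Finset.sum_comm]
  unfold Om
  rw [Finset.sum_sigma]
  refine Finset.sum_congr rfl fun T _ => ?_
  rw [Finset.sum_product]
  refine Finset.sum_congr rfl fun a _ => ?_
  refine Finset.sum_congr rfl fun c _ => ?_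
  rw [Finset.sum_filter]
  refine Finset.sum_congr rfl fun u _ => ?_
  unfold Cd
  simp only

/-- the parity of `T` -/
theorem T_par {m T : ℕ} {f : ℕ → ℕ → ℤ} (hT : T < m) (h : ¬ T % 2 = m % 2) :
    ∑ a ∈ (m - T).divisors.filter (fun a => 2 ∣ a ∧ ¬ 3 ∣ a),
      ∑ c ∈ T.divisors.filter (¬ 3 ∣ ·), f a c = 0 := by
  rw [Finset.sum_eq_zero]
  intro a ha
  rw [mem_filter, Nat.mem_divisors] at ha
  have : 2 ∣ m - T := ha.2.1.trans ha.1.1
  omega

/-- **C1C** -/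
theorem t_C1C : S_C1C := by
  intro n hn1 hn2 χ hχ
  have hn0 : (0 : ℤ) < n := by exact_mod_cast (lt_trans one_pos hn1)
  have e0 : ∑ u ∈ un n, χ u * FC (2 * u) n = -(2 * ∑ u ∈ un n, χ u * H 3 (2 * u) n) :=
    sum_flip hn1 χ hχ n hn0 (fun u => 2 * u) (fun u => by ring)
  rw [e0]
  congr 2
  have e1 : ∀ u ∈ un n, χ u * H 3 (2 * u) n = χ u * KS n (2 * u) := by
    intro u _
    rw [H_eq (by omega)]
  rw [sum_congr rfl e1, sum_KS n n χ (fun u => 2 * u)]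
  unfold WXC
  rw [sum_filter]
  refine sum_congr rfl fun T hT => ?_
  rw [mem_range] at hT
  by_cases h2 : T % 2 = 1
  · rw [if_pos h2]
    refine sum_congr rfl fun a ha => sum_congr rfl fun c hc => ?_
    rw [mem_filter, Nat.mem_divisors] at ha hc
    rw [mul_sum]
    have e2 : (un n).filter (fun u : ℕ => (n : ℤ) ∣ (a : ℤ) * (2 * (u : ℤ)) + ((T / c : ℕ) : ℤ) ∧
          (n : ℤ) ∣ (c : ℤ) * (2 * (u : ℤ)) - (((n - T) / a : ℕ) : ℤ)) =
        (un n).filter (fun u : ℕ => (n : ℤ) ∣ 2 * (a : ℤ) * (u : ℤ) + ((T / c : ℕ) : ℤ) ∧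
      (n : ℤ) ∣ 2 * (c : ℤ) * (u : ℤ) - (((n - T) / a : ℕ) : ℤ)) := by
      refine filter_congr fun u _ => ?_
      rw [show (a : ℤ) * (2 * (u : ℤ)) = 2 * a * u by ring,
        show (c : ℤ) * (2 * (u : ℤ)) = 2 * c * u by ring]
    rw [e2]
    refine sum_congr rfl fun u hu => ?_
    rw [mem_filter] at hu
    rw [mul_comm]
    congr 1
    unfold sx sg
    simp only
    obtain ⟨k, hk⟩ := hu.2.2
    have hd : ((((n - T) / a : ℕ) : ℤ) - (c : ℤ) * (2 * (u : ℤ))) / n = -k := by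
      have : (((n - T) / a : ℕ) : ℤ) - (c : ℤ) * (2 * (u : ℤ)) = n * (-k) := by
        linear_combination -hk
      rw [this, Int.mul_ediv_cancel_left _ hn0.ne']
    rw [hd]
    congr 1
    apply propext
    -- parity of `k` and of `Y`
    obtain ⟨h, hh⟩ : ∃ h : ℕ, n = 2 * h + 1 := ⟨n / 2, by omega⟩
    have hY : (((n - T) / a : ℕ) : ℤ) = 2 * (c * u - h * k) - k := by
      have h1 : (n : ℤ) = 2 * h + 1 := by rw [hh]; push_cast; ring
      rw [h1] at hk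
      linear_combination -hk
    generalize (n - T) / a = Y at hY ⊢
    generalize (c : ℤ) * u - h * k = Z at hY
    omega
  · rw [if_neg h2]
    exact T_par hT (by omega)

end Pool.Agent.N218.P24
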