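import Pool.Agent.N218.P24.C1
import Pool.Agent.N402.P15.C1BE

/-! # P24x C1CE: even discriminants -/

set_option autoImplicit false

namespace Pool.Agent.N218.P24

open Finset Pool.Agent.N877.P24
open Pool.Agent.N969.P15 (c2 chE Ev)

/-- the Chinese remainder theorem for sums -/
theorem crt_sum {q k : ℕ} (hq : 0 < q) (hk : 0 < k) (hc : Nat.Coprime q k) (g h : ℕ → ℤ) :
    ∑ u ∈ range (q * k), g (u % q) * h (u % k) = (∑ v ∈ range q, g v) * ∑ w ∈ range k, h w := by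
  rw [Finset.sum_mul_sum, ← Finset.sum_product']
  refine Finset.sum_nbij' (fun u => (u % q, u % k))
    (fun p => (Nat.chineseRemainder hc p.1 p.2 : ℕ)) ?_ ?_ ?_ ?_ ?_
  · intro u _
    rw [mem_product, mem_range, mem_range]
    exact ⟨Nat.mod_lt _ hq, Nat.mod_lt _ hk⟩
  · intro p _
    rw [mem_range]
    exact Nat.chineseRemainder_lt_mul hc _ _ hq.ne' hk.ne'
  · intro u hu
    rw [mem_range] at hu
    have h1 := (Nat.chineseRemainder hc (u % q) (u % k)).2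
    have h2 : (Nat.chineseRemainder hc (u % q) (u % k) : ℕ) ≡ u [MOD q * k] :=
      (Nat.modEq_and_modEq_iff_modEq_mul hc).1
        ⟨h1.1.trans (Nat.mod_modEq _ _), h1.2.trans (Nat.mod_modEq _ _)⟩
    exact Nat.ModEq.eq_of_lt_of_lt h2
      (Nat.chineseRemainder_lt_mul hc _ _ hq.ne' hk.ne') hu
  · rintro ⟨v, w⟩ hp
    rw [mem_product, mem_range, mem_range] at hp
    have h1 := (Nat.chineseRemainder hc v w).2
    have h2 : (Nat.chineseRemainder hc v w : ℕ) % q = v % q := h1.1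
    have h3 : (Nat.chineseRemainder hc v w : ℕ) % k = w % k := h1.2
    simp only
    rw [h2, h3, Nat.mod_eq_of_lt hp.1, Nat.mod_eq_of_lt hp.2]
  · intro u _
    rfl

/-- the part at `2` -/
def g2 (N a c X Y v : ℕ) : ℤ :=
  if v % 2 = 1 ∧ (4 : ℤ) ∣ (a : ℤ) * v + X ∧ (4 : ℤ) ∣ (c : ℤ) * v - Y then
    c2 N v * (if (2 : ℤ) ∣ ((a / 2 : ℕ) : ℤ) + ((Y : ℤ) - c * v) / 4 then 1 else -1) else 0

/-- the odd part -/
def hk (k a c X Y w : ℕ) : ℤ :=
  if Nat.Coprime w k ∧ (k : ℤ) ∣ (a : ℤ) * w + X ∧ (k : ℤ) ∣ (c : ℤ) * w - Y then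
    jacobiSym w k else 0

theorem c2_mod (N : ℕ) {x y : ℤ} (h : x % 8 = y % 8) : c2 N x = c2 N y := by
  unfold c2
  have h2 : x % 2 = y % 2 := by omega
  have h4 : x % 4 = y % 4 := by omega
  rw [h, h2, h4]

theorem c2_add4 {N : ℕ} (hN : N % 16 = 8) {x : ℤ} (hx : x % 2 = 1) : c2 N (x + 4) = -c2 N x := by
  unfold c2
  rw [if_neg (by omega : ¬ (x + 4) % 2 = 0), if_neg (by omega : ¬ x % 2 = 0),
    if_neg (by omega : ¬ N % 16 = 4), if_neg (by omega : ¬ N % 16 = 4)]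
  split_ifs <;> omega

theorem term_eq {k a c X Y : ℕ} (hk2 : k % 2 = 1) (u : ℕ) :
    (if Nat.Coprime u (8 * k) ∧ (((4 * k : ℕ) : ℤ) ∣ (a : ℤ) * u + X ∧
      ((4 * k : ℕ) : ℤ) ∣ (c : ℤ) * u - Y) then c2 (8 * k) u * jacobiSym u k *
        (if (2 : ℤ) ∣ ((a / 2 : ℕ) : ℤ) + ((Y : ℤ) - c * u) / ((4 * k : ℕ) : ℤ) then 1 else -1)
      else 0) = g2 (8 * k) a c X Y (u % 8) * hk k a c X Y (u % k) := by
  have hk0 : 0 < k := by omega
  have hco : Nat.Coprime 4 k := by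
    have : Nat.Coprime (2 ^ 2) k := Nat.Coprime.pow_left 2
      ((Nat.Prime.coprime_iff_not_dvd Nat.prime_two).2 (by omega))
    simpa using this
  have hco8 : Nat.Coprime 8 k := by
    have : Nat.Coprime (2 ^ 3) k := Nat.Coprime.pow_left 3
      ((Nat.Prime.coprime_iff_not_dvd Nat.prime_two).2 (by omega))
    simpa using this
  have hcoz : IsCoprime (4 : ℤ) (k : ℤ) := by exact_mod_cast Nat.isCoprime_iff_coprime.2 hco
  have hd : ∀ x : ℤ, ((4 * k : ℕ) : ℤ) ∣ x ↔ (4 : ℤ) ∣ x ∧ (k : ℤ) ∣ x := by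
    intro x
    push_cast
    constructor
    · intro h
      exact ⟨(Dvd.intro _ rfl).trans h, (Dvd.intro_left _ rfl).trans h⟩
    · rintro ⟨h1, h2⟩
      exact hcoz.mul_dvd h1 h2
  have hcop : Nat.Coprime u (8 * k) ↔ (u % 8) % 2 = 1 ∧ Nat.Coprime (u % k) k := by
    have e1 : Nat.Coprime (u % k) k ↔ Nat.Coprime u k := by
      unfold Nat.Coprime
      rw [← Nat.gcd_rec, Nat.gcd_comm]
    have e2 : Nat.Coprime u 8 ↔ (u % 8) % 2 = 1 := by
      rw [show (8 : ℕ) = 2 ^ 3 by norm_num, Nat.coprime_pow_right_iff (by norm_num),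
        Nat.coprime_comm, Nat.Prime.coprime_iff_not_dvd Nat.prime_two]
      omega
    rw [Nat.coprime_mul_iff_right, e2, e1]
  have hk' : ∀ b z : ℤ, ((k : ℤ) ∣ b * ((u % k : ℕ) : ℤ) + z ↔ (k : ℤ) ∣ b * u + z) := by
    intro b z
    have h1 : (u : ℤ) = ((u % k : ℕ) : ℤ) + k * ((u / k : ℕ) : ℤ) := by
      exact_mod_cast (Nat.mod_add_div u k).symm
    have e : b * (u : ℤ) + z = (b * ((u % k : ℕ) : ℤ) + z) + k * (b * ((u / k : ℕ) : ℤ)) := by
      linear_combination b * h1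
    rw [e, dvd_add_left (Dvd.intro _ rfl)]
  have h8' : ∀ b z : ℤ, ((4 : ℤ) ∣ b * ((u % 8 : ℕ) : ℤ) + z ↔ (4 : ℤ) ∣ b * u + z) := by
    intro b z
    have h1 : (u : ℤ) = ((u % 8 : ℕ) : ℤ) + 8 * ((u / 8 : ℕ) : ℤ) := by
      exact_mod_cast (Nat.mod_add_div u 8).symm
    have e : b * (u : ℤ) + z = (b * ((u % 8 : ℕ) : ℤ) + z) + 4 * (2 * b * ((u / 8 : ℕ) : ℤ)) := by
      linear_combination b * h1
    rw [e, dvd_add_left (Dvd.intro _ rfl)]
  unfold g2 hk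
  simp only [hcop, hd, sub_eq_add_neg, hk', h8']
  by_cases hA : (u % 8) % 2 = 1 ∧ (4 : ℤ) ∣ (a : ℤ) * u + X ∧ (4 : ℤ) ∣ (c : ℤ) * u + -Y
  · by_cases hB : Nat.Coprime (u % k) k ∧ (k : ℤ) ∣ (a : ℤ) * u + X ∧ (k : ℤ) ∣ (c : ℤ) * u + -Y
    · rw [if_pos hA, if_pos hB, if_pos ⟨⟨hA.1, hB.1⟩, ⟨hA.2.1, hB.2.1⟩, hA.2.2, hB.2.2⟩]
      have e1 : c2 (8 * k) u = c2 (8 * k) ((u % 8 : ℕ) : ℤ) := c2_mod _ (by omega)
      have e2 : jacobiSym u k = jacobiSym ((u % k : ℕ) : ℤ) k := by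
        apply jacobiSym.mod_left'
        push_cast
        rw [Int.emod_emod_of_dvd _ dvd_rfl]
      have e3 : ((2 : ℤ) ∣ ((a / 2 : ℕ) : ℤ) + ((Y : ℤ) + -(c * u)) / ((4 * k : ℕ) : ℤ)) ↔
          ((2 : ℤ) ∣ ((a / 2 : ℕ) : ℤ) + ((Y : ℤ) + -(c * ((u % 8 : ℕ) : ℤ))) / 4) := by
        obtain ⟨d, hd'⟩ := (hd ((c : ℤ) * u + -Y)).2 ⟨hA.2.2, hB.2.2⟩
        have f1 : (Y : ℤ) + -(c * u) = ((4 * k : ℕ) : ℤ) * (-d) := by linear_combination -hd'
        rw [f1, Int.mul_ediv_cancel_left _ (by positivity)]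
        have h1 : (u : ℤ) = ((u % 8 : ℕ) : ℤ) + 8 * ((u / 8 : ℕ) : ℤ) := by
          exact_mod_cast (Nat.mod_add_div u 8).symm
        have f2 : (Y : ℤ) + -(c * ((u % 8 : ℕ) : ℤ)) =
            4 * (k * (-d) + 2 * (c * ((u / 8 : ℕ) : ℤ))) := by
          push_cast at f1
          linear_combination f1 + c * h1
        rw [f2, Int.mul_ediv_cancel_left _ (by norm_num)]
        obtain ⟨j, hj⟩ : ∃ j : ℕ, k = 2 * j + 1 := ⟨k / 2, by omega⟩
        have f3 : (k : ℤ) * (-d) = 2 * (j * (-d)) - d := by rw [hj]; push_cast; ring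
        rw [f3]
        generalize (j : ℤ) * (-d) = s
        generalize (c : ℤ) * ((u / 8 : ℕ) : ℤ) = t
        omega
      rw [e1, e2]
      simp only [e3]
      ring
    · rw [if_neg hB, mul_zero, if_neg]
      rintro ⟨⟨-, h2⟩, ⟨-, h3⟩, -, h4⟩
      exact hB ⟨h2, h3, h4⟩
  · rw [if_neg hA, zero_mul, if_neg]
    rintro ⟨⟨h1, -⟩, ⟨h3, -⟩, h4, -⟩
    exact hA ⟨h1, h3, h4⟩

theorem sq8 {c : ℕ} (hc : c % 2 = 1) : ((c : ℤ) * c) % 8 = 1 := by
  have h : c % 8 = 1 ∨ c % 8 = 3 ∨ c % 8 = 5 ∨ c % 8 = 7 := by omega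
  have h2 : (c * c) % 8 = 1 := by
    rcases h with h | h | h | h <;> · rw [Nat.mul_mod, h]
  exact_mod_cast h2

theorem g2_val {N a c X Y : ℕ} (hN : N % 16 = 8) (hdet : (a * Y + c * X) % 8 = 4)
    (hc : c % 2 = 1) (v : ℕ) : g2 N a c X Y v =
    if v % 2 = 1 ∧ (4 : ℤ) ∣ (c : ℤ) * v - Y then
      (if 2 ∣ a / 2 then 1 else -1) * c2 N ((c * Y : ℕ) : ℤ) else 0 := by
  have hdz : (4 : ℤ) ∣ (a : ℤ) * Y + c * X := by
    have : 4 ∣ a * Y + c * X := by omega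
    exact_mod_cast this
  unfold g2
  by_cases h : v % 2 = 1 ∧ (4 : ℤ) ∣ (c : ℤ) * v - Y
  · have h4 : (4 : ℤ) ∣ (a : ℤ) * v + X := by
      have h1 : (4 : ℤ) ∣ (c : ℤ) * ((a : ℤ) * v + X) := by
        have e : (c : ℤ) * ((a : ℤ) * v + X) = a * (c * v - Y) + (a * Y + c * X) := by ring
        rw [e]
        exact dvd_add (Dvd.dvd.mul_left h.2 _) hdz
      have h2 : IsCoprime (4 : ℤ) (c : ℤ) := by
        have : Nat.Coprime (2 ^ 2) c := Nat.Coprime.pow_left 2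
          ((Nat.Prime.coprime_iff_not_dvd Nat.prime_two).2 (by omega))
        exact_mod_cast Nat.isCoprime_iff_coprime.2 this
      exact h2.dvd_of_dvd_mul_left h1
    rw [if_pos ⟨h.1, h4, h.2⟩, if_pos h]
    obtain ⟨d, hd⟩ := h.2
    have e1 : (Y : ℤ) - c * v = 4 * (-d) := by linear_combination -hd
    rw [e1, Int.mul_ediv_cancel_left _ (by norm_num)]
    have hsq := sq8 hc
    obtain ⟨s, hs⟩ : ∃ s : ℤ, (c : ℤ) * c = 8 * s + 1 := ⟨((c : ℤ) * c) / 8, by omega⟩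
    obtain ⟨t, ht⟩ : ∃ t : ℤ, (c : ℤ) = 2 * t + 1 := ⟨(c : ℤ) / 2, by omega⟩
    have e2 : c2 N ((c * Y : ℕ) : ℤ) = c2 N ((v : ℤ) + 4 * d) := by
      apply c2_mod
      have e3 : ((c * Y : ℕ) : ℤ) = (v + 4 * d) + 8 * (s * v - t * d - d) := by
        push_cast
        linear_combination (v : ℤ) * hs + (c : ℤ) * e1 - 4 * d * ht
      rw [e3]
      exact Int.add_mul_emod_self_left _ _ _
    rw [e2]
    have hv : (v : ℤ) % 2 = 1 := by omega
    rcases Int.even_or_odd d with ⟨j, hj⟩ | ⟨j, hj⟩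
    · have e4 : c2 N ((v : ℤ) + 4 * d) = c2 N v := by
        apply c2_mod
        omega
      rw [e4]
      have e5 : ((2 : ℤ) ∣ ((a / 2 : ℕ) : ℤ) + -d) ↔ 2 ∣ a / 2 := by omega
      simp only [e5]
      ring
    · have e4 : c2 N ((v : ℤ) + 4 * d) = c2 N ((v : ℤ) + 4) := by
        apply c2_mod
        omega
      rw [e4, c2_add4 hN hv]
      have e5 : ((2 : ℤ) ∣ ((a / 2 : ℕ) : ℤ) + -d) ↔ ¬ 2 ∣ a / 2 := by omega
      simp only [e5]
      by_cases h6 : 2 ∣ a / 2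
      · rw [if_neg (not_not.2 h6), if_pos h6]
        ring
      · rw [if_pos h6, if_neg h6]
        ring
  · rw [if_neg h, if_neg fun h' => h ⟨h'.1, h'.2.2⟩]

/-- the sum at `2` -/
theorem sum_g2 {N a c X Y : ℕ} (hN : N % 16 = 8) (ha : a % 2 = 0) (hdet : (a * Y + c * X) % 8 = 4) :
    ∑ v ∈ range 8, g2 N a c X Y v = if c % 2 = 1 ∧ Y % 2 = 1 then
      2 * ((if 2 ∣ a / 2 then 1 else -1) * c2 N ((c * Y : ℕ) : ℤ)) else 0 := by
  by_cases hc : c % 2 = 1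
  · by_cases hY : Y % 2 = 1
    · rw [if_pos ⟨hc, hY⟩, sum_congr rfl fun v _ => g2_val hN hdet hc v, ← sum_filter, sum_const,
        nsmul_eq_mul]
      have hcard : ((range 8).filter fun v : ℕ => v % 2 = 1 ∧ (4 : ℤ) ∣ (c : ℤ) * v - Y).card = 2 := by
        have key : ∀ v ∈ range 8, ((v % 2 = 1 ∧ (4 : ℤ) ∣ (c : ℤ) * v - Y) ↔
            v % 4 = (c * Y) % 4) := by
          intro v hv
          rw [mem_range] at hv
          have h3 : (c % 4 = 1 ∨ c % 4 = 3) ∧ (Y % 4 = 1 ∨ Y % 4 = 3) := by omega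
          obtain ⟨b, hb⟩ : ∃ b, c = 4 * b + c % 4 := ⟨c / 4, by omega⟩
          obtain ⟨y, hy⟩ : ∃ y, Y = 4 * y + Y % 4 := ⟨Y / 4, by omega⟩
          have e1 : (c : ℤ) * v - Y = 4 * (b * v - y) + ((c % 4 : ℕ) * v - (Y % 4 : ℕ)) := by
            have hb' : (c : ℤ) = 4 * b + (c % 4 : ℕ) := by exact_mod_cast hb
            have hy' : (Y : ℤ) = 4 * y + (Y % 4 : ℕ) := by exact_mod_cast hy
            linear_combination (v : ℤ) * hb' - hy'
          rw [e1, dvd_add_right (Dvd.intro _ rfl), Nat.mul_mod]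
          rcases h3 with ⟨h4 | h4, h5 | h5⟩ <;> rw [h4, h5] <;> push_cast <;> omega
        rw [filter_congr key]
        have h6 : (c * Y) % 4 < 4 := Nat.mod_lt _ (by norm_num)
        generalize (c * Y) % 4 = r at h6
        interval_cases r <;> decide
      rw [hcard]
      push_cast
      ring
    · rw [if_neg fun h => hY h.2]
      refine sum_eq_zero fun v _ => ?_
      rw [g2_val hN hdet hc, if_neg]
      rintro ⟨h1, h2⟩
      obtain ⟨b, hb⟩ : ∃ b, c = 2 * b + 1 := ⟨c / 2, by omega⟩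
      obtain ⟨w, hw⟩ : ∃ w, v = 2 * w + 1 := ⟨v / 2, by omega⟩
      have e : (c : ℤ) * v - Y = 2 * (2 * b * w + b + w) + 1 - Y := by
        rw [hb, hw]
        push_cast
        ring
      rw [e] at h2
      generalize 2 * (b : ℤ) * w + b + w = z at h2
      omega
  · rw [if_neg fun h => hc h.1]
    refine sum_eq_zero fun v _ => ?_
    unfold g2
    rw [if_neg]
    rintro ⟨h1, ⟨s, hs⟩, ⟨t, ht⟩⟩
    obtain ⟨b, hb⟩ : ∃ b, c = 2 * b := ⟨c / 2, by omega⟩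
    obtain ⟨e, he⟩ : ∃ e, a = 2 * e := ⟨a / 2, by omega⟩
    have h8 : (8 : ℤ) ∣ (a : ℤ) * Y + c * X := by
      refine ⟨b * s - e * t, ?_⟩
      have e1 : (a : ℤ) * Y + c * X = c * (a * v + X) - a * (c * v - Y) := by ring
      rw [e1, hs, ht, hb, he]
      push_cast
      ring
    have h9 : 8 ∣ a * Y + c * X := by exact_mod_cast h8
    omega

/-- the odd part -/
theorem sum_hk {k a c X Y N : ℕ} (hs : Squarefree k) (hdet : a * Y + c * X = N)
    (hN : ∀ p ∈ k.primeFactors, p ∣ N ∧ ¬ p ^ 2 ∣ N) :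
    ∑ w ∈ range k, hk k a c X Y w = ∏ p ∈ k.primeFactors, psp p a c Y X := by
  have h := Pool.Agent.N402.P15.gen_C1B k.primeFactors
    (fun p hp => Nat.prime_of_mem_primeFactors hp) a c X Y N hdet hN
  rw [Nat.prod_primeFactors_of_squarefree hs] at h
  have e : ∏ p ∈ k.primeFactors, psp p a c Y X =
      ∏ p ∈ k.primeFactors, Pool.Agent.N969.P15.psp p a c Y X := rfl
  rw [e, ← h]
  unfold hk Pool.Agent.N969.P15.un
  rw [filter_filter, sum_filter]

/-- the character sum over the cusps -/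
theorem inner {n a c X Y : ℕ} (hn : Squarefree n) (hn4 : n % 4 = 2) (ha : a % 2 = 0)
    (hdet : a * Y + c * X = 2 * n) :
    ∑ u ∈ (un (4 * n)).filter (fun u : ℕ => ((2 * n : ℕ) : ℤ) ∣ (a : ℤ) * (u : ℤ) + (X : ℤ) ∧
      ((2 * n : ℕ) : ℤ) ∣ (c : ℤ) * (u : ℤ) - (Y : ℤ)),
      chE (4 * n) u * (if (2 : ℤ) ∣ ((a / 2 : ℕ) : ℤ) + ((Y : ℤ) - c * u) / ((2 * n : ℕ) : ℤ)
        then 1 else -1) =
    if c % 2 = 1 ∧ Y % 2 = 1 then
      2 * ((if 2 ∣ a / 2 then 1 else -1) * c2 (4 * n) ((c * Y : ℕ) : ℤ) *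
        ∏ p ∈ n.primeFactors.erase 2, psp p a c Y X) else 0 := by
  obtain ⟨k, rfl⟩ : ∃ k, n = 2 * k := ⟨n / 2, by omega⟩
  have hk2 : k % 2 = 1 := by omega
  have hk0 : 0 < k := by omega
  have hsk : Squarefree k := hn.squarefree_of_dvd (Dvd.intro_left 2 rfl)
  have h2k : 2 ∉ k.primeFactors := fun h => by
    have := Nat.dvd_of_mem_primeFactors h
    omega
  have hpf : (2 * k).primeFactors.erase 2 = k.primeFactors := by
    rw [Nat.primeFactors_mul (by norm_num) hk0.ne', Nat.Prime.primeFactors Nat.prime_two]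
    ext x
    simp only [Finset.mem_erase, Finset.mem_union, Finset.mem_singleton]
    constructor
    · rintro ⟨h3, h4 | h4⟩
      · exact absurd h4 h3
      · exact h4
    · intro h3
      exact ⟨fun h => h2k (h ▸ h3), Or.inr h3⟩
  have hpf4 : (4 * (2 * k)).primeFactors.erase 2 = k.primeFactors := by
    have h8 : (8 : ℕ).primeFactors = {2} := by
      rw [show (8 : ℕ) = 2 ^ 3 from rfl]
      exact Nat.primeFactors_prime_pow (by norm_num) (by norm_num)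
    rw [show 4 * (2 * k) = 8 * k by ring, Nat.primeFactors_mul (by norm_num) hk0.ne', h8]
    ext x
    simp only [Finset.mem_erase, Finset.mem_union, Finset.mem_singleton]
    constructor
    · rintro ⟨h3, h4 | h4⟩
      · exact absurd h4 h3
      · exact h4
    · intro h3
      exact ⟨fun h => h2k (h ▸ h3), Or.inr h3⟩
  have hco8 : Nat.Coprime 8 k := by
    have : Nat.Coprime (2 ^ 3) k := Nat.Coprime.pow_left 3
      ((Nat.Prime.coprime_iff_not_dvd Nat.prime_two).2 (by omega))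
    simpa using this
  have e8 : 4 * (2 * k) = 8 * k := by ring
  have e4 : 2 * (2 * k) = 4 * k := by ring
  have hN : ∀ p ∈ k.primeFactors, p ∣ 4 * k ∧ ¬ p ^ 2 ∣ 4 * k := by
    intro p hp
    have hpp := Nat.prime_of_mem_primeFactors hp
    have hpd := Nat.dvd_of_mem_primeFactors hp
    refine ⟨Dvd.dvd.mul_left hpd 4, fun h => ?_⟩
    have hp2 : p ≠ 2 := fun h => h2k (h ▸ hp)
    have hc : Nat.Coprime (p ^ 2) (2 ^ 2) :=
      Nat.Coprime.pow _ _ ((Nat.coprime_primes hpp Nat.prime_two).2 hp2)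
    have h5 := hc.dvd_of_dvd_mul_left (h : p ^ 2 ∣ 2 ^ 2 * k)
    rw [pow_two] at h5
    exact hpp.one_lt.ne' (Nat.isUnit_iff.1 (hsk p h5))
  have hch : ∀ u : ℤ, chE (4 * (2 * k)) u = c2 (8 * k) u * jacobiSym u k := by
    intro u
    unfold chE
    rw [hpf4, e8]
    congr 1
    conv_rhs => rw [← Nat.prod_primeFactors_of_squarefree hsk]
    exact (Pool.Agent.N402.P15.jac_pr (fun p hp => Nat.prime_of_mem_primeFactors hp) u).symm
  have e1 : ∑ u ∈ (un (4 * (2 * k))).filter (fun u : ℕ =>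
      ((2 * (2 * k) : ℕ) : ℤ) ∣ (a : ℤ) * (u : ℤ) + (X : ℤ) ∧
      ((2 * (2 * k) : ℕ) : ℤ) ∣ (c : ℤ) * (u : ℤ) - (Y : ℤ)),
      chE (4 * (2 * k)) u * (if (2 : ℤ) ∣ ((a / 2 : ℕ) : ℤ) +
        ((Y : ℤ) - c * u) / ((2 * (2 * k) : ℕ) : ℤ) then 1 else -1) =
      ∑ u ∈ range (8 * k), g2 (8 * k) a c X Y (u % 8) * hk k a c X Y (u % k) := by
    unfold un
    rw [filter_filter, sum_filter]
    simp only [e8, e4]
    refine sum_congr rfl fun u _ => ?_
    rw [← term_eq hk2 u]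
    refine if_congr Iff.rfl ?_ rfl
    have hch' := hch u
    rw [e8] at hch'
    rw [hch']
  rw [e1, crt_sum (by norm_num) hk0 hco8, sum_g2 (by omega) ha (by omega),
    sum_hk hsk (hdet.trans e4) hN, hpf, e8]
  split_ifs <;> ring

/-- **C1CE** -/
theorem t_C1CE : S_C1CE := by
  intro n hn hn4
  have hev : Ev (4 * n) := ⟨n, rfl, hn, Or.inr hn4⟩
  have hn0 : (0 : ℤ) < ((2 * n : ℕ) : ℤ) := by
    have : 0 < 2 * n := by omega
    exact_mod_cast this
  have e0 : ∑ u ∈ un (4 * n), chE (4 * n) u * FC u (2 * n) =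
      -(2 * ∑ u ∈ un (4 * n), chE (4 * n) u * H 3 u ((2 * n : ℕ) : ℤ)) := by
    have := sum_flip (n := 4 * n) (by omega) (chE (4 * n))
      (fun u => Pool.Agent.N973.P15.C.chE_odd hev u) ((2 * n : ℕ) : ℤ) hn0 (fun u => u)
      (fun u => by push_cast; ring)
    rw [← this]
    push_cast
    rfl
  rw [e0]
  have e1 : ∀ u ∈ un (4 * n), chE (4 * n) u * H 3 u ((2 * n : ℕ) : ℤ) =
      chE (4 * n) u * KS (2 * n) u := by
    intro u _
    rw [H_eq (by omega)]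
  rw [sum_congr rfl e1]
  have e2 := sum_KS (4 * n) (2 * n) (chE (4 * n)) (fun u => u)
  rw [e2]
  have e3 : ∑ T ∈ range (2 * n), ∑ a ∈ (2 * n - T).divisors.filter (fun a => 2 ∣ a ∧ ¬ 3 ∣ a),
      ∑ c ∈ T.divisors.filter (¬ 3 ∣ ·),
        ∑ u ∈ (un (4 * n)).filter (fun u : ℕ =>
          ((2 * n : ℕ) : ℤ) ∣ (a : ℤ) * (u : ℤ) + ((T / c : ℕ) : ℤ) ∧
          ((2 * n : ℕ) : ℤ) ∣ (c : ℤ) * (u : ℤ) - (((2 * n - T) / a : ℕ) : ℤ)),
          chE (4 * n) u * sx (2 * n) u ⟨T, (a, c)⟩ =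
      2 * ∑ T ∈ (range (2 * n)).filter (fun T => 0 < T ∧ 2 ∣ T), WWCe n (2 * n - T) T := by
    rw [mul_sum, sum_filter]
    refine sum_congr rfl fun T hT => ?_
    rw [mem_range] at hT
    by_cases h2 : 0 < T ∧ 2 ∣ T
    · rw [if_pos h2]
      have e4 : ∀ a ∈ (2 * n - T).divisors.filter (fun a => 2 ∣ a ∧ ¬ 3 ∣ a),
          ∀ c ∈ T.divisors.filter (¬ 3 ∣ ·),
          ∑ u ∈ (un (4 * n)).filter (fun u : ℕ =>
            ((2 * n : ℕ) : ℤ) ∣ (a : ℤ) * (u : ℤ) + ((T / c : ℕ) : ℤ) ∧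
            ((2 * n : ℕ) : ℤ) ∣ (c : ℤ) * (u : ℤ) - (((2 * n - T) / a : ℕ) : ℤ)),
            chE (4 * n) u * sx (2 * n) u ⟨T, (a, c)⟩ =
          if c % 2 = 1 ∧ ((2 * n - T) / a) % 2 = 1 then
            2 * ((if 2 ∣ a / 2 then 1 else -1) * c2 (4 * n) ((c * ((2 * n - T) / a) : ℕ) : ℤ) *
              ∏ p ∈ n.primeFactors.erase 2, psp p a c ((2 * n - T) / a) (T / c)) else 0 := by
        intro a ha c hc
        rw [mem_filter, Nat.mem_divisors] at ha hc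
        have hdet : a * ((2 * n - T) / a) + c * (T / c) = 2 * n := by
          rw [Nat.mul_div_cancel' ha.1.1, Nat.mul_div_cancel' hc.1.1]
          omega
        rw [← inner hn hn4 (by omega) hdet]
        refine sum_congr rfl fun u _ => ?_
        rfl
      rw [sum_congr rfl fun a ha => sum_congr rfl fun c hc => e4 a ha c hc]
      unfold WWCe
      have e5 : (2 * n - T).divisors.filter (fun a => 2 ∣ a ∧ ¬ 3 ∣ a ∧ ((2 * n - T) / a) % 2 = 1) =
          ((2 * n - T).divisors.filter (fun a => 2 ∣ a ∧ ¬ 3 ∣ a)).filter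
            (fun a => ((2 * n - T) / a) % 2 = 1) := by
        rw [filter_filter]
        refine filter_congr fun a _ => ?_
        rw [and_assoc]
      have e6 : T.divisors.filter (fun c => c % 2 = 1 ∧ ¬ 3 ∣ c) =
          (T.divisors.filter (¬ 3 ∣ ·)).filter (fun c => c % 2 = 1) := by
        rw [filter_filter]
        refine filter_congr fun c _ => ?_
        rw [and_comm]
      rw [e5, e6, mul_sum, sum_filter (p := fun a => ((2 * n - T) / a) % 2 = 1)]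
      refine sum_congr rfl fun a _ => ?_
      by_cases h7 : ((2 * n - T) / a) % 2 = 1
      · rw [if_pos h7, mul_sum, sum_filter (p := fun c => c % 2 = 1)]
        refine sum_congr rfl fun c _ => ?_
        by_cases h8 : c % 2 = 1
        · rw [if_pos ⟨h8, h7⟩, if_pos h8]
        · rw [if_neg fun h => h8 h.1, if_neg h8]
      · rw [if_neg h7]
        refine sum_eq_zero fun c _ => ?_
        rw [if_neg fun h => h7 h.2]
    · rw [if_neg h2]
      rcases Nat.eq_zero_or_pos T with rfl | h0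
      · refine sum_eq_zero fun a _ => ?_
        rw [Nat.divisors_zero, filter_empty, sum_empty]
      · exact T_par hT (by omega)
  rw [e3]
  ring

end Pool.Agent.N218.P24
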